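import Pool.Agent.Lib.MP_4432a5_co_ML.Bip

set_option autoImplicit false

/-!
# Lower bounds for Mader's function from complete bipartite graphs glued along a triangle
-/

namespace Pool.Agent.Results.MP_4432a5_co.MaderLowerBip

open Pool.Agent.MP4432a5ML

theorem odd_case {h : ℕ} (hh : 3 ≤ h) {c : ℝ} (hc : Admissible (2 * h + 1) c) :
    (h : ℝ) * (h + 3) / 2 ≤ c := by
  obtain ⟨k, rfl⟩ := Nat.exists_eq_add_of_le' hh
  -- `r = (h^2 + 3h - 6) / 2`, `s = (h^2 + 3h - 6) / 2`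
  obtain ⟨q, hq⟩ : ∃ q : ℕ, (k + 3) ^ 2 + 3 * (k + 3) = 2 * q + 6 := by
    obtain ⟨t, ht⟩ := Nat.even_mul_succ_self k
    refine ⟨t + 4 * k + 6, ?_⟩
    have : (k + 3) ^ 2 + 3 * (k + 3) = k * (k + 1) + 8 * k + 18 := by ring
    rw [this, ht]
    ring
  have hb := bip_bound (r := q) (s := q) (n := 2 * (k + 3) + 1) (by omega) (by nlinarith) ?_ hc
  · have hq0 : (0 : ℝ) < q := by
      have : 0 < q := by nlinarith
      exact_mod_cast this
    have h1 : 2 * ((q : ℝ) + 2 * q + q * q) / (q + q) = q + 3 := by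
      field_simp
      ring
    rw [h1] at hb
    have h2 : ((k + 3 : ℕ) : ℝ) * ((k + 3 : ℕ) + 3) / 2 = q + 3 := by
      have h3 : (((k + 3) ^ 2 + 3 * (k + 3) : ℕ) : ℝ) = ((2 * q + 6 : ℕ) : ℝ) := by rw [hq]
      push_cast at h3 ⊢
      linarith
    rw [h2]
    exact hb
  · intro a b hab h1 h2
    have h3 : a ≤ k + 3 := by
      by_contra hcon
      push Not at hcon
      nlinarith
    have h4 : b ≤ k + 3 := by
      by_contra hcon
      push Not at hcon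
      nlinarith
    omega

theorem even_case {h : ℕ} (hh : 3 ≤ h) {c : ℝ} (hc : Admissible (2 * h) c) :
    ((h : ℝ) ^ 4 + 4 * h ^ 3 - 5 * h ^ 2 - 12 * h + 4) / (2 * (h ^ 2 + 2 * h - 7)) ≤ c := by
  obtain ⟨k, rfl⟩ := Nat.exists_eq_add_of_le' hh
  -- `r = (h^2 + h - 6) / 2`, `s = (h^2 + 3h - 8) / 2`
  obtain ⟨r, hr⟩ : ∃ r : ℕ, (k + 3) ^ 2 + (k + 3) = 2 * r + 6 := by
    obtain ⟨t, ht⟩ := Nat.even_mul_succ_self k
    refine ⟨t + 3 * k + 3, ?_⟩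
    have : (k + 3) ^ 2 + (k + 3) = k * (k + 1) + 6 * k + 12 := by ring
    rw [this, ht]
    ring
  obtain ⟨s, hs⟩ : ∃ s : ℕ, (k + 3) ^ 2 + 3 * (k + 3) = 2 * s + 8 := by
    obtain ⟨t, ht⟩ := Nat.even_mul_succ_self k
    refine ⟨t + 4 * k + 5, ?_⟩
    have : (k + 3) ^ 2 + 3 * (k + 3) = k * (k + 1) + 8 * k + 18 := by ring
    rw [this, ht]
    ring
  have hb := bip_bound (r := r) (s := s) (n := 2 * (k + 3)) (by omega) (by nlinarith) ?_ hc
  · have hr' : (r : ℝ) = (((k : ℝ) + 3) ^ 2 + (k + 3) - 6) / 2 := by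
      have h3 : (((k + 3) ^ 2 + (k + 3) : ℕ) : ℝ) = ((2 * r + 6 : ℕ) : ℝ) := by rw [hr]
      push_cast at h3
      linarith
    have hs' : (s : ℝ) = (((k : ℝ) + 3) ^ 2 + 3 * (k + 3) - 8) / 2 := by
      have h3 : (((k + 3) ^ 2 + 3 * (k + 3) : ℕ) : ℝ) = ((2 * s + 8 : ℕ) : ℝ) := by rw [hs]
      push_cast at h3
      linarith
    refine le_trans (le_of_eq ?_) hb
    have hpos : (0 : ℝ) < ((k : ℝ) + 3) ^ 2 + 2 * (k + 3) - 7 := by nlinarith [k.cast_nonneg (α := ℝ)]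
    have h1 : (r : ℝ) + s = ((k : ℝ) + 3) ^ 2 + 2 * (k + 3) - 7 := by rw [hr', hs']; ring
    rw [h1, hr', hs']
    push_cast
    rw [div_eq_div_iff (by positivity) hpos.ne']
    ring
  · intro a b hab h1 h2
    have h3 : a ≤ k + 3 := by
      by_contra hcon
      push Not at hcon
      nlinarith
    have h4 : b ≤ k + 2 := by
      by_contra hcon
      push Not at hcon
      nlinarith
    omega

/-- `f(2h+1) ≥ h(h+3)/2` and `f(2h) ≥ (h^4+4h^3-5h^2-12h+4) / (2(h^2+2h-7))` for `h ≥ 3` -/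
theorem result : ∀ h : ℕ, 3 ≤ h →
    (((h : ℝ) * (h + 3) / 2 : ℝ) : EReal) ≤ maderF (2 * h + 1) ∧
    ((((h : ℝ) ^ 4 + 4 * h ^ 3 - 5 * h ^ 2 - 12 * h + 4) / (2 * (h ^ 2 + 2 * h - 7)) : ℝ) : EReal)
      ≤ maderF (2 * h) :=
  fun _ hh => ⟨le_maderF fun _ hc => odd_case hh hc, le_maderF fun _ hc => even_case hh hc⟩

end Pool.Agent.Results.MP_4432a5_co.MaderLowerBip
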