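import Pool.Agent.Lib.MP_4432a5_co_ML.Cyc

set_option autoImplicit false

/-!
# `f(n) ≥ 2n - 26/7` for all `n ≥ 9`
-/

namespace Pool.Agent.Results.MP_4432a5_co.MaderLowerHub

open Pool.Agent.MP4432a5ML

theorem result : ∀ n : ℕ, 9 ≤ n → ((2 * (n : ℝ) - 26 / 7 : ℝ) : EReal) ≤ maderF n := by
  intro n hn
  obtain ⟨m, rfl⟩ := Nat.exists_eq_add_of_le' hn
  exact le_maderF fun c hc => cyc_bound hc

end Pool.Agent.Results.MP_4432a5_co.MaderLowerHub
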