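import Pool.Agent.Lib.MP_4432a5_co.Final

set_option autoImplicit false

/-!
# `g(n) ≤ ⌈37 n / 4⌉` for all large `n`

For all large `n`, every `2n`-connected finite graph with `2 e(G) / v(G) ≥ 37 n / 4` is
`n`-pair-connected. In particular every `k`-connected graph with `k ≥ 37 n / 4` is
`n`-pair-connected, and `g(n) ≤ ⌈37 n / 4⌉`.
-/

namespace Pool.Agent.Results.MP_4432a5_co.PairConnUpper

open Pool.Agent.MP4432a5

open scoped Classical in
theorem sum_dg {V : Type} [Fintype V] (G : SimpleGraph V) :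
    ∑ v : V, dg G Finset.univ v = 2 * G.edgeSet.ncard := by
  have h1 : ∀ v : V, dg G Finset.univ v = G.degree v := by
    intro v
    unfold dg nb
    rw [← SimpleGraph.card_neighborFinset_eq_degree]
    congr 1
    ext w
    simp
  rw [Finset.sum_congr rfl (fun v _ => h1 v), SimpleGraph.sum_degrees_eq_twice_card_edges]
  congr 1
  rw [← SimpleGraph.coe_edgeFinset, Set.ncard_coe_finset]

theorem result : ∃ n₀ : ℕ, ∀ n ≥ n₀,
    (∀ (V : Type) [Fintype V] (G : SimpleGraph V),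
      IsKConn G (2 * n) → 37 * n * Fintype.card V ≤ 8 * G.edgeSet.ncard → PairConn G n) ∧
    (∀ (V : Type) [Fintype V] (G : SimpleGraph V) (k : ℕ),
      37 * n ≤ 4 * k → IsKConn G k → PairConn G n) ∧
    g n ≤ ⌈(37 * n : ℚ) / 4⌉₊ := by
  obtain ⟨n0, h0⟩ := main_avg
  refine ⟨n0, fun n hn => ?_⟩
  have h1 : ∀ k : ℕ, 37 * n ≤ 4 * k → ∀ (V : Type) [Fintype V] (G : SimpleGraph V),
      IsKConn G k → PairConn G n := fun k hk V _ G hG => main_conn (h0 n hn) hk V G hG
  refine ⟨fun V _ G hG he => ?_, fun V _ G k hk hG => h1 k hk V G hG, ?_⟩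
  · refine h0 n hn V G hG ?_
    rw [sum_dg]
    linarith
  · refine Nat.sInf_le (h1 _ ?_)
    have h2 : (37 * n : ℚ) / 4 ≤ (⌈(37 * n : ℚ) / 4⌉₊ : ℚ) := Nat.le_ceil _
    have h3 : (37 * n : ℚ) ≤ 4 * (⌈(37 * n : ℚ) / 4⌉₊ : ℚ) := by linarith
    exact_mod_cast h3

end Pool.Agent.Results.MP_4432a5_co.PairConnUpper
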